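import Mathlib

set_option autoImplicit false

/-! A counting function which satisfies a dyadic recursion driven by another one has the same density. -/

namespace Pool.Agent.Helper270_FK

open Filter Topology

theorem bound_of_tendsto {G : ℕ → ℝ} {d : ℝ} (hG : Tendsto (fun N : ℕ => G N / N) atTop (𝓝 d))
    {ε : ℝ} (hε : 0 < ε) : ∃ C : ℝ, 0 ≤ C ∧ ∀ K : ℕ, |G K - d * K| ≤ ε * K + C := by
  rw [Metric.tendsto_atTop] at hG
  obtain ⟨N0, hN0⟩ := hG ε hε
  refine ⟨∑ K ∈ Finset.range (N0 + 1), |G K - d * K|,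
    Finset.sum_nonneg fun _ _ => abs_nonneg _, fun K => ?_⟩
  by_cases hK : K < N0 + 1
  · have h1 : |G K - d * K| ≤ ∑ K ∈ Finset.range (N0 + 1), |G K - d * K| :=
      Finset.single_le_sum (f := fun K : ℕ => |G K - d * K|) (fun _ _ => abs_nonneg _)
        (Finset.mem_range.2 hK)
    have h2 : 0 ≤ ε * K := by positivity
    linarith
  · have hK1 : N0 ≤ K := by omega
    have hK0 : (0 : ℝ) < K := by
      have : 0 < K := by omega
      exact_mod_cast this
    have h1 := hN0 K hK1
    rw [Real.dist_eq] at h1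
    have h2 : G K - d * K = (G K / K - d) * K := by field_simp
    rw [h2, abs_mul, abs_of_pos hK0]
    have h3 : 0 ≤ ∑ K ∈ Finset.range (N0 + 1), |G K - d * K| :=
      Finset.sum_nonneg fun _ _ => abs_nonneg _
    nlinarith

theorem log_double {K : ℕ} (hK : 1 ≤ K) (r : ℕ) (hr : r < 2) :
    Nat.log 2 (2 * K + r) = Nat.log 2 K + 1 := by
  rw [Nat.log_of_one_lt_of_le (by norm_num) (by omega)]
  congr 2
  omega

theorem rec_bound {F G : ℕ → ℝ} {e d ε C : ℝ} (he0 : 0 ≤ e) (he1 : e ≤ 1) (hε : 0 < ε) (hC : 0 ≤ C)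
    (hF0 : F 0 = 0) (hG0 : G 0 = 0)
    (h1 : ∀ K : ℕ, F (2 * K + 1) = F K + G K + e)
    (h2 : ∀ K : ℕ, F (2 * K + 2) = F (K + 1) + G K + e)
    (hG : ∀ K : ℕ, |G K - d * K| ≤ ε * K + C) :
    ∀ N : ℕ, 1 ≤ N → |F N - d * N| ≤ ε * N + (|d| + C + 2) * (Nat.log 2 N + 1) := by
  intro N
  induction N using Nat.strong_induction_on with
  | _ N ih =>
    intro hN
    have hd := abs_nonneg d
    have hed : |e - d| ≤ 1 + |d| := by
      calc |e - d| ≤ |e| + |d| := abs_sub _ _
        _ ≤ 1 + |d| := by rw [abs_of_nonneg he0]; linarith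
    rcases Nat.even_or_odd' N with ⟨M, rfl | rfl⟩
    · obtain ⟨K, rfl⟩ : ∃ K, M = K + 1 := ⟨M - 1, by omega⟩
      have e0 : 2 * (K + 1) = 2 * K + 2 := by ring
      rw [e0, h2]
      have i1 := ih (K + 1) (by omega) (by omega)
      have i2 := hG K
      have hl : Nat.log 2 (2 * K + 2) = Nat.log 2 (K + 1) + 1 := by
        have := log_double (K := K + 1) (by omega) 0 (by omega)
        rwa [show 2 * (K + 1) + 0 = 2 * K + 2 by ring] at this
      rw [hl]
      have key : F (K + 1) + G K + e - d * ((2 * K + 2 : ℕ) : ℝ) =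
          (F (K + 1) - d * ((K + 1 : ℕ) : ℝ)) + (G K - d * K) + (e - d) := by
        push_cast; ring
      rw [key]
      have t1 := abs_add_le ((F (K + 1) - d * ((K + 1 : ℕ) : ℝ)) + (G K - d * K)) (e - d)
      have t2 := abs_add_le (F (K + 1) - d * ((K + 1 : ℕ) : ℝ)) (G K - d * K)
      push_cast at *
      have hKn : (0 : ℝ) ≤ K := Nat.cast_nonneg K
      nlinarith
    · rcases Nat.eq_zero_or_pos M with rfl | hM
      · simp only [mul_zero, zero_add]
        have := h1 0
        simp only [mul_zero, zero_add] at this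
        rw [this, hF0, hG0]
        simp only [Nat.cast_one, mul_one, zero_add, Nat.log_one_right, Nat.cast_zero]
        linarith
      · rw [h1]
        have i1 := ih M (by omega) hM
        have i2 := hG M
        have hl := log_double hM 1 (by omega)
        rw [hl]
        have key : F M + G M + e - d * ((2 * M + 1 : ℕ) : ℝ) =
            (F M - d * (M : ℝ)) + (G M - d * M) + (e - d) := by
          push_cast; ring
        rw [key]
        have t1 := abs_add_le ((F M - d * (M : ℝ)) + (G M - d * M)) (e - d)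
        have t2 := abs_add_le (F M - d * (M : ℝ)) (G M - d * M)
        push_cast at *
        have hKn : (0 : ℝ) ≤ M := Nat.cast_nonneg M
        nlinarith

theorem log_small (D : ℝ) :
    Tendsto (fun N : ℕ => D * ((Nat.log 2 N : ℝ) + 1) / N) atTop (𝓝 0) := by
  have h1 : Tendsto (fun x : ℝ => Real.log x / x) atTop (𝓝 0) :=
    Real.isLittleO_log_id_atTop.tendsto_div_nhds_zero
  have h2 : Tendsto (fun N : ℕ => Real.log N / N) atTop (𝓝 0) := h1.comp tendsto_natCast_atTop_atTop
  have h3 : Tendsto (fun N : ℕ => (1 : ℝ) / N) atTop (𝓝 0) := tendsto_one_div_atTop_nhds_zero_nat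
  have h4 : Tendsto (fun N : ℕ => (Real.log N / N) / Real.log 2 + 1 / N) atTop (𝓝 0) := by
    simpa using (h2.div_const (Real.log 2)).add h3
  have h5 : Tendsto (fun N : ℕ => ((Nat.log 2 N : ℝ) + 1) / N) atTop (𝓝 0) := by
    refine squeeze_zero (fun N => by positivity) (fun N => ?_) h4
    have h6 : (Nat.log 2 N : ℝ) ≤ Real.logb 2 N := Real.natLog_le_logb N 2
    rw [Real.logb] at h6
    rw [add_div]
    have : (Nat.log 2 N : ℝ) / N ≤ Real.log N / N / Real.log 2 := by
      rw [div_right_comm]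
      exact div_le_div_of_nonneg_right h6 (Nat.cast_nonneg N)
    linarith
  have h7 := h5.const_mul D
  rw [mul_zero] at h7
  refine h7.congr fun N => by ring

theorem rec_tendsto {F G : ℕ → ℝ} {e d : ℝ} (he0 : 0 ≤ e) (he1 : e ≤ 1)
    (hF0 : F 0 = 0) (hG0 : G 0 = 0)
    (h1 : ∀ K : ℕ, F (2 * K + 1) = F K + G K + e)
    (h2 : ∀ K : ℕ, F (2 * K + 2) = F (K + 1) + G K + e)
    (hG : Tendsto (fun N : ℕ => G N / N) atTop (𝓝 d)) :
    Tendsto (fun N : ℕ => F N / N) atTop (𝓝 d) := by
  rw [Metric.tendsto_atTop]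
  intro ε hε
  obtain ⟨C, hC, hb⟩ := bound_of_tendsto hG (half_pos (half_pos hε))
  have hr := rec_bound he0 he1 (half_pos (half_pos hε)) hC hF0 hG0 h1 h2 hb
  have hl := log_small (|d| + C + 2)
  rw [Metric.tendsto_atTop] at hl
  obtain ⟨N0, hN0⟩ := hl (ε / 2) (half_pos hε)
  refine ⟨max N0 1, fun N hN => ?_⟩
  have hN1 : 1 ≤ N := le_trans (le_max_right _ _) hN
  have hNR : (0 : ℝ) < N := by exact_mod_cast hN1
  have h3 := hN0 N (le_trans (le_max_left _ _) hN)
  rw [Real.dist_eq, sub_zero] at h3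
  have h4 := (abs_lt.1 h3).2
  rw [Real.dist_eq]
  have h5 : F N / N - d = (F N - d * N) / N := by field_simp
  rw [h5, abs_div, abs_of_pos hNR, div_lt_iff₀ hNR]
  rw [div_lt_iff₀ hNR] at h4
  have h6 := hr N hN1
  nlinarith

open Classical in
/-- the number of the positive integers `n ≤ N` with the property `P` -/
theorem count_eq (P : ℕ → Prop) (N : ℕ) :
    {n : ℕ | 0 < n ∧ n ≤ N ∧ P n}.ncard = Nat.count (fun k => P (k + 1)) N := by
  rw [Nat.count_eq_card_filter_range, ← Set.ncard_coe_finset]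
  apply Set.ncard_congr (fun n _ => n - 1)
  · rintro n ⟨h1, h2, h3⟩
    simp only [Finset.coe_filter, Finset.mem_range, Set.mem_setOf_eq]
    refine ⟨by omega, ?_⟩
    rwa [Nat.sub_add_cancel h1]
  · rintro a b ⟨ha, _⟩ ⟨hb, _⟩ h
    omega
  · intro b hb
    simp only [Finset.coe_filter, Finset.mem_range, Set.mem_setOf_eq] at hb
    exact ⟨b + 1, ⟨by omega, by omega, hb.2⟩, by omega⟩

/-- A property `P` with `P (2 n) ↔ P n` and `P (2 m + 1) ↔ S m` has the same density as `S`. -/
theorem density_transfer {P S : ℕ → Prop} {d : ℝ} (h1 : ∀ n, 0 < n → (P (2 * n) ↔ P n))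
    (h2 : ∀ m, 0 < m → (P (2 * m + 1) ↔ S m))
    (hS : Tendsto (fun N : ℕ => ({n : ℕ | 0 < n ∧ n ≤ N ∧ S n}.ncard : ℝ) / N) atTop (𝓝 d)) :
    Tendsto (fun N : ℕ => ({n : ℕ | 0 < n ∧ n ≤ N ∧ P n}.ncard : ℝ) / N) atTop (𝓝 d) := by
  classical
  have key : ∀ K : ℕ, (Nat.count (fun k => P (k + 1)) (2 * K + 1) =
      Nat.count (fun k => P (k + 1)) K + Nat.count (fun k => S (k + 1)) K + (if P 1 then 1 else 0)) ∧
      (Nat.count (fun k => P (k + 1)) (2 * K + 2) =
      Nat.count (fun k => P (k + 1)) (K + 1) + Nat.count (fun k => S (k + 1)) K +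
        (if P 1 then 1 else 0)) := by
    have step : ∀ K : ℕ, (Nat.count (fun k => P (k + 1)) (2 * K + 1) =
      Nat.count (fun k => P (k + 1)) K + Nat.count (fun k => S (k + 1)) K + (if P 1 then 1 else 0)) →
      (Nat.count (fun k => P (k + 1)) (2 * K + 2) =
      Nat.count (fun k => P (k + 1)) (K + 1) + Nat.count (fun k => S (k + 1)) K +
        (if P 1 then 1 else 0)) := by
      intro K hK
      rw [Nat.count_succ, hK, Nat.count_succ (n := K)]
      have : (if P (2 * K + 1 + 1) then 1 else 0) = (if P (K + 1) then 1 else 0) := by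
        rw [show 2 * K + 1 + 1 = 2 * (K + 1) by ring]
        simp only [h1 (K + 1) (by omega)]
      rw [this]
      ring
    intro K
    induction K with
    | zero =>
      have h0 : Nat.count (fun k => P (k + 1)) (2 * 0 + 1) =
          Nat.count (fun k => P (k + 1)) 0 + Nat.count (fun k => S (k + 1)) 0 +
            (if P 1 then 1 else 0) := by
        simp [Nat.count_succ]
      exact ⟨h0, step 0 h0⟩
    | succ K ih =>
      have h0 : Nat.count (fun k => P (k + 1)) (2 * (K + 1) + 1) =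
          Nat.count (fun k => P (k + 1)) (K + 1) + Nat.count (fun k => S (k + 1)) (K + 1) +
            (if P 1 then 1 else 0) := by
        rw [show 2 * (K + 1) + 1 = (2 * K + 2) + 1 by ring, Nat.count_succ, ih.2,
          Nat.count_succ (n := K) (p := fun k => S (k + 1))]
        have : (if P (2 * K + 2 + 1) then 1 else 0) = (if S (K + 1) then 1 else 0) := by
          rw [show 2 * K + 2 + 1 = 2 * (K + 1) + 1 by ring]
          simp only [h2 (K + 1) (by omega)]
        rw [this]
        ring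
      exact ⟨h0, step (K + 1) h0⟩
  have hS' : Tendsto (fun N : ℕ => ((Nat.count (fun k => S (k + 1)) N : ℕ) : ℝ) / N) atTop (𝓝 d) :=
    hS.congr fun N => by rw [count_eq]
  have hP : Tendsto (fun N : ℕ => ((Nat.count (fun k => P (k + 1)) N : ℕ) : ℝ) / N) atTop (𝓝 d) := by
    apply rec_tendsto (e := ((if P 1 then 1 else 0 : ℕ) : ℝ))
      (G := fun N : ℕ => ((Nat.count (fun k => S (k + 1)) N : ℕ) : ℝ))
      (F := fun N : ℕ => ((Nat.count (fun k => P (k + 1)) N : ℕ) : ℝ))
    · positivity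
    · split_ifs <;> simp
    · simp
    · simp
    · intro K
      have := (key K).1
      exact_mod_cast this
    · intro K
      have := (key K).2
      exact_mod_cast this
    · exact hS'
  exact hP.congr fun N => by rw [count_eq]

end Pool.Agent.Helper270_FK
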