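import Mathlib
import Pool.Agent.Helper270_FK.Lim

set_option autoImplicit false

/-! Farkas' map on odd integers is conjugate to the `3x+1` function. -/

namespace Pool.Agent.Helper270_FK

/-- Farkas' map -/
def V (n : ℕ) : ℕ :=
  if n % 2 = 0 then n / 2 else if n % 4 = 1 then (n + 1) / 2 else (3 * n + 1) / 2

/-- the `3x+1` function -/
def T (m : ℕ) : ℕ := if m % 2 = 0 then m / 2 else (3 * m + 1) / 2

/-- the orbit of `x` under `f` is eventually periodic -/
def EP (f : ℕ → ℕ) (x : ℕ) : Prop := ∃ j p : ℕ, 0 < p ∧ f^[j + p] x = f^[j] x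

theorem V_two (n : ℕ) : V (2 * n) = n := by
  unfold V
  rw [if_pos (by omega)]
  omega

theorem V_odd (m : ℕ) : V (2 * m + 1) = 2 * T m + 1 := by
  unfold V T
  split_ifs <;> omega

theorem V_iter (i m : ℕ) : V^[i] (2 * m + 1) = 2 * T^[i] m + 1 := by
  induction i with
  | zero => rfl
  | succ i ih => rw [Function.iterate_succ_apply', ih, V_odd, Function.iterate_succ_apply']

theorem V_pow (k n : ℕ) : V^[k] (2 ^ k * n) = n := by
  induction k with
  | zero => simp
  | succ k ih => rw [Function.iterate_succ_apply, show 2 ^ (k + 1) * n = 2 * (2 ^ k * n) by ring,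
      V_two, ih]

theorem T_pos {m : ℕ} (h : 0 < m) : 0 < T m := by
  unfold T
  split_ifs <;> omega

theorem T_iter_pos {m : ℕ} (h : 0 < m) (i : ℕ) : 0 < T^[i] m := by
  induction i with
  | zero => exact h
  | succ i ih => rw [Function.iterate_succ_apply']; exact T_pos ih

theorem V_pos {n : ℕ} (h : 0 < n) : 0 < V n := by
  unfold V
  split_ifs <;> omega

theorem EP_next (f : ℕ → ℕ) (x : ℕ) : EP f x ↔ EP f (f x) := by
  constructor
  · rintro ⟨j, p, hp, h⟩
    refine ⟨j, p, hp, ?_⟩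
    rw [← Function.iterate_succ_apply, ← Function.iterate_succ_apply, Function.iterate_succ_apply',
      Function.iterate_succ_apply', h]
  · rintro ⟨j, p, hp, h⟩
    refine ⟨j + 1, p, hp, ?_⟩
    rw [show j + 1 + p = (j + p) + 1 by ring, Function.iterate_succ_apply,
      Function.iterate_succ_apply, h]

theorem EP_iter (f : ℕ → ℕ) (k x : ℕ) : EP f x ↔ EP f (f^[k] x) := by
  induction k with
  | zero => rfl
  | succ k ih => rw [ih, Function.iterate_succ_apply', EP_next]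

theorem EP_odd (m : ℕ) : EP V (2 * m + 1) ↔ EP T m := by
  constructor
  · rintro ⟨j, p, hp, h⟩
    rw [V_iter, V_iter] at h
    exact ⟨j, p, hp, by omega⟩
  · rintro ⟨j, p, hp, h⟩
    exact ⟨j, p, hp, by rw [V_iter, V_iter, h]⟩

theorem EP_V (k m : ℕ) : EP V (2 ^ k * (2 * m + 1)) ↔ EP T m := by
  rw [EP_iter V k, V_pow, EP_odd]

theorem exists_form {n : ℕ} (h : 0 < n) : ∃ k m : ℕ, n = 2 ^ k * (2 * m + 1) := by
  obtain ⟨k, m, hm, hn⟩ := Nat.exists_eq_two_pow_mul_odd h.ne'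
  obtain ⟨r, rfl⟩ := hm
  exact ⟨k, r, hn⟩

theorem EP_T_zero : EP T 0 := ⟨0, 1, one_pos, by simp [T]⟩

theorem all_EP : (∀ n, 0 < n → EP V n) ↔ ∀ m, 0 < m → EP T m := by
  constructor
  · intro h m _
    exact (EP_odd m).1 (h _ (by omega))
  · intro h n hn
    obtain ⟨k, m, rfl⟩ := exists_form hn
    rw [EP_V]
    rcases Nat.eq_zero_or_pos m with rfl | hm
    · exact EP_T_zero
    · exact h m hm

/-- reaching the cycle `{3, 5}` -/
theorem reach_odd (m : ℕ) : (∃ j, V^[j] (2 * m + 1) = 3) ↔ ∃ j, T^[j] m = 1 := by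
  constructor
  · rintro ⟨j, hj⟩
    rw [V_iter] at hj
    exact ⟨j, by omega⟩
  · rintro ⟨j, hj⟩
    exact ⟨j, by rw [V_iter, hj]⟩

theorem reach_two {a : ℕ} (ha : a % 2 = 1) (n : ℕ) :
    (∃ j, V^[j] (2 * n) = a) ↔ ∃ j, V^[j] n = a := by
  constructor
  · rintro ⟨j, hj⟩
    rcases j with _ | j
    · simp at hj; omega
    · rw [Function.iterate_succ_apply, V_two] at hj
      exact ⟨j, hj⟩
  · rintro ⟨j, hj⟩
    exact ⟨j + 1, by rw [Function.iterate_succ_apply, V_two, hj]⟩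

theorem reach_pow {a : ℕ} (ha : a % 2 = 1) (k n : ℕ) :
    (∃ j, V^[j] (2 ^ k * n) = a) ↔ ∃ j, V^[j] n = a := by
  induction k with
  | zero => simp
  | succ k ih => rw [show 2 ^ (k + 1) * n = 2 * (2 ^ k * n) by ring, reach_two ha, ih]

theorem all_reach : (∀ n, 0 < n → ∃ j, V^[j] n = 1 ∨ V^[j] n = 3) ↔
    ∀ m, 0 < m → ∃ j, T^[j] m = 1 := by
  constructor
  · intro h m hm
    obtain ⟨j, hj | hj⟩ := h (2 * m + 1) (by omega)
    · rw [V_iter] at hj
      have := T_iter_pos hm j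
      omega
    · exact (reach_odd m).1 ⟨j, hj⟩
  · intro h n hn
    obtain ⟨k, m, rfl⟩ := exists_form hn
    rcases Nat.eq_zero_or_pos m with rfl | hm
    · exact ⟨k, Or.inl (by rw [V_pow])⟩
    · obtain ⟨j, hj⟩ := (reach_pow (a := 3) (by norm_num) k _).2 ((reach_odd m).2 (h m hm))
      exact ⟨j, Or.inr hj⟩

theorem periodic_iff {n : ℕ} (hn : 0 < n) (p : ℕ) (hp : 0 < p) :
    V^[p] n = n ↔ ∃ m, n = 2 * m + 1 ∧ T^[p] m = m := by
  constructor
  · intro h
    obtain ⟨k, m, rfl⟩ := exists_form hn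
    have hodd : ∀ i, k ≤ i → (V^[i] (2 ^ k * (2 * m + 1))) % 2 = 1 := by
      intro i hi
      obtain ⟨r, rfl⟩ := Nat.exists_eq_add_of_le' hi
      rw [Function.iterate_add_apply, V_pow, V_iter]
      omega
    have hper : ∀ q, V^[p * q] (2 ^ k * (2 * m + 1)) = 2 ^ k * (2 * m + 1) := by
      intro q
      induction q with
      | zero => simp
      | succ q ih => rw [Nat.mul_succ, Function.iterate_add_apply, h, ih]
    have h1 := hodd (p * k) (Nat.le_mul_of_pos_left k hp)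
    rw [hper] at h1
    have hk : k = 0 := by
      rcases k with _ | k
      · rfl
      · exfalso
        rw [pow_succ] at h1
        have : 2 ^ k * 2 * (2 * m + 1) = 2 * (2 ^ k * (2 * m + 1)) := by ring
        omega
    subst hk
    refine ⟨m, by simp, ?_⟩
    rw [pow_zero, one_mul, V_iter] at h
    omega
  · rintro ⟨m, rfl, h⟩
    rw [V_iter, h]

open Filter Topology

/-- transfer of densities -/
theorem transfer {Q : ℕ → Prop} (hQ : ∀ n, 0 < n → (Q n ↔ Q (V n))) {d : ℝ}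
    (h : Tendsto (fun N : ℕ => ({m : ℕ | 0 < m ∧ m ≤ N ∧ Q (2 * m + 1)}.ncard : ℝ) / N) atTop (𝓝 d)) :
    Tendsto (fun N : ℕ => ({n : ℕ | 0 < n ∧ n ≤ N ∧ Q n}.ncard : ℝ) / N) atTop (𝓝 d) := by
  refine density_transfer (S := fun m => Q (2 * m + 1)) (fun n hn => ?_) (fun m _ => Iff.rfl) h
  have := hQ (2 * n) (by omega)
  rwa [V_two] at this

end Pool.Agent.Helper270_FK
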